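import Mathlib
import Pool.Agent.Helper97.CliqueDefs
import Pool.Agent.Helper97.CliquePoly

/-!
# Recognising split clique graphs with a bounded stable side is polynomial

For every fixed `k`, the set of split graphs with `|S| ≤ k` which are clique graphs is decidable in
polynomial time by a Turing machine (in the sense of Mathlib, `Turing.TM2ComputableInPolyTime`,
with finite stack alphabets).  Graphs are given by their adjacency matrices.

Idea: replacing a vertex `x` of the complete side by several twins (with the same neighbourhood in
`S`) preserves the property of being a clique graph, so by Dickson's lemma whether the graph is a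
clique graph only depends on finitely many threshold conditions on the numbers of vertices of the
complete side with a given neighbourhood in `S`.
-/

namespace Pool.Agent.Results.MP_4c1bf1_lc.RecPoly

open Pool.Agent.Helper97.CG Pool.Agent.Helper96

open Classical in
/-- For every `k`, there is a polynomial-time Turing machine which, given (the adjacency matrix of)
a finite graph `G`, decides whether `G` is a split graph with `|S| ≤ k` that is a clique graph. -/
theorem result (k : ℕ) :
    ∃ M : Turing.TM2ComputableInPolyTime encGraph (fun b : Bool => [b])
      (fun G : Σ n : ℕ, SimpleGraph (Fin n) =>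
        decide (IsSplitBounded k G.2 ∧ IsCliqueGraph G.2)),
      ∀ j, Finite (M.tm.Γ j) := by
  have hB : ∀ k' : ℕ, ∃ B : Set (Set (Fin k') → ℕ), B.Finite ∧
      ∀ (β : Type) [Finite β] (ty : β → Set (Fin k')), IsCliqueGraph (SG ty) ↔
        ∃ b ∈ B, (∀ T, b T ≤ mult ty T) ∧ (∀ T, b T = 0 → mult ty T = 0) :=
    fun k' => exists_thresholds (Fin k')
  choose B hB1 hB2 using hB
  exact polyTime_prop encGraph _ (defP_Rec k B hB1) (rec_iff k B hB2)

end Pool.Agent.Results.MP_4c1bf1_lc.RecPoly
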